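import Pool.Agent.H55.CG.Targets

/-! # Row MSL of `cog_modules` (MP_65efe8_pr): measurability and dependence of patterns (helper49) -/

set_option autoImplicit false

open MeasureTheory ProbabilityTheory Filter Topology
open Pool.Agent.H95 Pool.Agent.H95.Cop Pool.Agent.H55.CG

namespace Pool.Agent.H49.CG

theorem dep_shift {β : Type*} {n s t : ℕ} {f : (ℕ → ℝ) → β} (hf : DepLt n f) (h : n + s ≤ t) :
    DepLt t (fun x => f (shift s x)) := by
  intro x x' hx
  apply hf
  intro i hi
  rw [shift_apply, shift_apply]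
  exact hx _ (by omega)

theorem pf_MSL (hMSG : T_MSG) (hPZM : T_PZM) : T_MSL := by
  intro K ℓ q m L
  have hmain : ∀ L : List (ℕ × ℕ), Measurable (ff K ℓ L) ∧
      MeasurableSet {x : ℕ → ℝ | GP q ℓ L x} ∧
      DepLt (2 * tot L * ℓ) (ff K ℓ L) ∧ DepLt (2 * tot L * ℓ) (GP q ℓ L) := by
    intro L
    induction L with
    | nil =>
      refine ⟨?_, ?_, ?_, ?_⟩
      · have : ff K ℓ [] = fun _ => (1 : ℝ) := rfl
        rw [this]; exact measurable_const
      · have : {x : ℕ → ℝ | GP q ℓ [] x} = Set.univ := by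
          ext x; simp [GP]
        rw [this]; exact MeasurableSet.univ
      · intro x x' _; rfl
      · intro x x' _; rfl
    | cons p L ih =>
      obtain ⟨i1, i2, i3, i4⟩ := ih
      obtain ⟨a1, a2, a3, a4⟩ := hMSG K ℓ q false true p.1
      obtain ⟨b1, b2, b3, b4⟩ := hMSG K ℓ q true false p.2
      have e1 : 2 * tot (p :: L) * ℓ = 2 * p.1 * ℓ + 2 * p.2 * ℓ + 2 * tot L * ℓ := by
        simp only [tot]; ring
      have e2 : 2 * (p.1 + p.2) * ℓ = 2 * p.1 * ℓ + 2 * p.2 * ℓ := by ring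
      refine ⟨?_, ?_, ?_, ?_⟩
      · have : ff K ℓ (p :: L) = fun x => gg K ℓ false p.1 true x *
          gg K ℓ true p.2 false (shift (2 * p.1 * ℓ) x) *
          ff K ℓ L (shift (2 * (p.1 + p.2) * ℓ) x) := rfl
        rw [this]
        exact (a1.mul (b1.comp (measurable_shift _))).mul (i1.comp (measurable_shift _))
      · have : {x : ℕ → ℝ | GP q ℓ (p :: L) x} = {x : ℕ → ℝ | Gd q ℓ false p.1 x} ∩
          ((shift (2 * p.1 * ℓ)) ⁻¹' {x : ℕ → ℝ | Gd q ℓ true p.2 x} ∩
          (shift (2 * (p.1 + p.2) * ℓ)) ⁻¹' {x : ℕ → ℝ | GP q ℓ L x}) := by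
          ext x; rfl
        rw [this]
        exact a2.inter (((measurable_shift _) b2).inter ((measurable_shift _) i2))
      · intro x x' hx
        show gg K ℓ false p.1 true x * gg K ℓ true p.2 false (shift (2 * p.1 * ℓ) x) *
          ff K ℓ L (shift (2 * (p.1 + p.2) * ℓ) x) =
          gg K ℓ false p.1 true x' * gg K ℓ true p.2 false (shift (2 * p.1 * ℓ) x') *
          ff K ℓ L (shift (2 * (p.1 + p.2) * ℓ) x')
        have c1 : gg K ℓ false p.1 true x = gg K ℓ false p.1 true x' :=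
          a3.mono (by rw [e1]; omega) x x' hx
        have c2 := dep_shift (s := 2 * p.1 * ℓ) (t := 2 * tot (p :: L) * ℓ) b3
          (by rw [e1]; omega) x x' hx
        have c3 := dep_shift (s := 2 * (p.1 + p.2) * ℓ) (t := 2 * tot (p :: L) * ℓ) i3
          (by rw [e1, e2]; omega) x x' hx
        simp only at c2 c3
        rw [c1, c2, c3]
      · intro x x' hx
        show (Gd q ℓ false p.1 x ∧ Gd q ℓ true p.2 (shift (2 * p.1 * ℓ) x) ∧
          GP q ℓ L (shift (2 * (p.1 + p.2) * ℓ) x)) =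
          (Gd q ℓ false p.1 x' ∧ Gd q ℓ true p.2 (shift (2 * p.1 * ℓ) x') ∧
          GP q ℓ L (shift (2 * (p.1 + p.2) * ℓ) x'))
        have c1 : Gd q ℓ false p.1 x = Gd q ℓ false p.1 x' :=
          a4.mono (by rw [e1]; omega) x x' hx
        have c2 := dep_shift (s := 2 * p.1 * ℓ) (t := 2 * tot (p :: L) * ℓ) b4
          (by rw [e1]; omega) x x' hx
        have c3 := dep_shift (s := 2 * (p.1 + p.2) * ℓ) (t := 2 * tot (p :: L) * ℓ) i4
          (by rw [e1, e2]; omega) x x' hx
        simp only at c2 c3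
        rw [c1, c2, c3]
  obtain ⟨m1, m2, m3, m4⟩ := hmain L
  refine ⟨m1, m2, m3, m4, ?_, ?_, ?_⟩
  · exact (hMSG K ℓ q false false 1).1.mul (m1.comp (measurable_shift _))
  · exact (measurable_shift (2 * ℓ)) m2
  · unfold XB
    exact Finset.measurable_sum _ (fun y _ => Finset.measurable_sum _ (fun z _ => (hPZM K _ _).1))

end Pool.Agent.H49.CG
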