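import Pool.Agent.H55.CG.Targets

/-! # Row STF of `cog_modules` (MP_65efe8_pr): the last good block (helper49) -/

set_option autoImplicit false

open MeasureTheory ProbabilityTheory Filter Topology
open Pool.Agent.H95 Pool.Agent.H95.Cop Pool.Agent.H55.CG

namespace Pool.Agent.H49.CG

theorem pf_STF (hPZS : T_PZS) (hVTL : T_VTL) (hTLM : T_TLM) : T_STF := by
  intro K hK0 ℓ m N x hℓ hm j hj
  have hB : j * ((2 * m + 2) * ℓ) + (2 * m + 2) * ℓ ≤ N := by
    have h := hj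
    rw [add_mul, one_mul] at h
    exact h
  have h3 : (2 * m + 2) * ℓ = (2 * m + 1) * ℓ + ℓ := by ring
  have h4 : 3 * ℓ ≤ (2 * m + 1) * ℓ := Nat.mul_le_mul_right ℓ (by omega)
  have h5 : 2 * ℓ ≤ (2 * m + 1) * ℓ := le_trans (Nat.mul_le_mul_right ℓ (by omega)) h4
  generalize hJ : j * ((2 * m + 2) * ℓ) = J at hB ⊢
  unfold SS XB
  rw [hJ, Finset.sum_mul]
  have e1 : J + ℓ = ℓ + J := by ring
  have e2 : J + 2 * ℓ = 2 * ℓ + J := by ring
  rw [e1, e2, ← Finset.sum_Ico_add' (fun y => V K N x y) ℓ (2 * ℓ) J]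
  apply Finset.sum_le_sum
  intro y hy
  rw [Finset.mem_Ico] at hy
  refine le_trans ?_ (hVTL K hK0 N x (y + J) (by omega))
  rw [Finset.sum_mul]
  have h6 : ∑ z ∈ Finset.Ico ((2 * m + 1) * ℓ) ((2 * m + 2) * ℓ),
      pz K (shift J x) (z - y) y * (tailK K N / 2) ≤
      ∑ z ∈ Finset.Ico ((2 * m + 1) * ℓ) ((2 * m + 2) * ℓ),
        pz K x (z + J - (y + J)) (y + J) * (tailK K (N - (z + J)) / 2) := by
    apply Finset.sum_le_sum
    intro z hz
    rw [Finset.mem_Ico] at hz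
    have e3 : z + J - (y + J) = z - y := by omega
    rw [e3, (hPZS K x y (z - y) J).2.2.2]
    apply mul_le_mul_of_nonneg_left _ (hPZS K x (y + J) (z - y) J).2.2.1
    have h7 := (hTLM K hK0 (N - (z + J)) N (by omega)).1
    linarith
  refine le_trans h6 ?_
  rw [Finset.sum_Ico_add' (fun a => pz K x (a - (y + J)) (y + J) * (tailK K (N - a) / 2))
    ((2 * m + 1) * ℓ) ((2 * m + 2) * ℓ) J]
  apply Finset.sum_le_sum_of_subset_of_nonneg
  · intro a ha
    rw [Finset.mem_Ico] at ha ⊢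
    omega
  · intro a _ _
    have h8 := (hPZS K x (y + J) (a - (y + J)) J).2.2.1
    have h9 := tailK_nonneg K (N - a)
    positivity

end Pool.Agent.H49.CG
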